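import Pool.Agent.Lib.PolyTM.ArrayCompile
import Pool.Agent.Lib.FOLFPd_h74.Dep

/-! # Degree of the time bound of compiled programs

The old bound `Cmd.cost_poly` composes polynomials at each sequential composition, so its degree
depends on the size of the program. Here the degree is bounded by the nesting depth. -/

namespace Pool.Agent.Lib.PolyTM

set_option linter.unusedSectionVars false

open Function Turing

section Lang

variable {V B K : Type} [DecidableEq V] [DecidableEq B] [DecidableEq K]

/-- Nesting depth of the loops of a command. -/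
def Cmd.dep {V B K : Type} : Cmd V B K → ℕ
  | .op _ => 0
  | .seq a b => max a.dep b.dep
  | .ite _ a b => max a.dep b.dep
  | .loop _ a => a.dep + 1

variable [Fintype K]

theorem pow_dep_le {N a b : ℕ} (h : a ≤ b) : (N + 1) ^ a ≤ (N + 1) ^ b :=
  Nat.pow_le_pow_right (by omega) h

/-- Growth of the total stack length. -/
theorem Cmd.growth_deg (c : Cmd V B K) (hc : c.WF) : ∃ C : ℕ, ∀ (N : ℕ) (s : St V B K),
    (c.exec N s).total ≤ s.total + C * (N + 1) ^ c.dep := by
  induction c with
  | op o =>
    refine ⟨1, fun N s => ?_⟩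
    have := o.total_le (N := N) hc s
    simpa [Cmd.dep, Cmd.exec] using this
  | seq a b iha ihb =>
    obtain ⟨p, hp⟩ := iha hc.1
    obtain ⟨q, hq⟩ := ihb hc.2
    refine ⟨p + q, fun N s => ?_⟩
    have h1 := hp N s
    have h2 := hq N (a.exec N s)
    have h3 : p * (N + 1) ^ a.dep ≤ p * (N + 1) ^ (max a.dep b.dep) :=
      Nat.mul_le_mul_left _ (pow_dep_le (le_max_left _ _))
    have h4 : q * (N + 1) ^ b.dep ≤ q * (N + 1) ^ (max a.dep b.dep) :=
      Nat.mul_le_mul_left _ (pow_dep_le (le_max_right _ _))
    simp only [Cmd.exec, Cmd.dep, add_mul]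
    omega
  | ite f a b iha ihb =>
    obtain ⟨p, hp⟩ := iha hc.1
    obtain ⟨q, hq⟩ := ihb hc.2
    refine ⟨p + q, fun N s => ?_⟩
    have h1 := hp N s
    have h2 := hq N s
    have h3 : p * (N + 1) ^ a.dep ≤ p * (N + 1) ^ (max a.dep b.dep) :=
      Nat.mul_le_mul_left _ (pow_dep_le (le_max_left _ _))
    have h4 : q * (N + 1) ^ b.dep ≤ q * (N + 1) ^ (max a.dep b.dep) :=
      Nat.mul_le_mul_left _ (pow_dep_le (le_max_right _ _))
    simp only [Cmd.exec, Cmd.dep, add_mul]
    split <;> omega
  | loop i a iha =>
    obtain ⟨p, hp⟩ := iha hc.2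
    refine ⟨p, fun N s => ?_⟩
    have key : ∀ t (s : St V B K), ((fun s => (Op.inc i).exec N (a.exec N s))^[t] s).total
        ≤ s.total + t * (p * (N + 1) ^ a.dep) := by
      intro t
      induction t with
      | zero => intro s; simp
      | succ t ih =>
        intro s
        rw [Function.iterate_succ_apply]
        refine (ih _).trans ?_
        have h1 := hp N s
        have h2 : ((Op.inc i).exec N (a.exec N s)).total = (a.exec N s).total := rfl
        rw [h2, add_mul, one_mul]
        omega
    have h1 := key N ((Op.zero i).exec N s)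
    have h2 : ((Op.zero i).exec N s).total = s.total := rfl
    rw [h2] at h1
    simp only [Cmd.exec, Cmd.dep]
    refine h1.trans ?_
    have h3 : N * (p * (N + 1) ^ a.dep) ≤ (N + 1) * (p * (N + 1) ^ a.dep) :=
      Nat.mul_le_mul_right _ (by omega)
    have h4 : p * (N + 1) ^ (a.dep + 1) = (N + 1) * (p * (N + 1) ^ a.dep) := by ring
    omega

/-- Total stack length before an iteration of a loop. -/
theorem iter_total {i : V} {a : Cmd V B K} {p N : ℕ}
    (hp : ∀ s : St V B K, (a.exec N s).total ≤ s.total + p * (N + 1) ^ a.dep)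
    (t : ℕ) (s : St V B K) : ((fun s => (Op.inc i).exec N (a.exec N s))^[t] s).total
        ≤ s.total + t * (p * (N + 1) ^ a.dep) := by
  induction t generalizing s with
  | zero => simp
  | succ t ih =>
    rw [Function.iterate_succ_apply]
    refine (ih _).trans ?_
    have h1 := hp s
    have h2 : ((Op.inc i).exec N (a.exec N s)).total = (a.exec N s).total := rfl
    rw [h2, add_mul, one_mul]
    omega

/-- The cost in terms of the depth. -/
theorem Cmd.cost_bound (c : Cmd V B K) (hc : c.WF) : ∃ C : ℕ, ∀ (N : ℕ) (s : St V B K),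
    c.cost N s ≤ C * (N + 1) ^ c.dep * (s.total + (N + 1) ^ c.dep + (N + 1)) := by
  induction c with
  | op o =>
    refine ⟨2, fun N s => ?_⟩
    have hlen : ∀ k, (s.st k).length ≤ s.total := by
      intro k
      exact Finset.single_le_sum (f := fun k => (s.st k).length) (fun _ _ => Nat.zero_le _)
        (Finset.mem_univ k)
    simp only [Cmd.cost, Cmd.dep, pow_zero, mul_one]
    cases o with
    | move k k' => simp only [Op.cost]; have := hlen k; omega
    | _ => simp only [Op.cost]; omega
  | seq a b iha ihb =>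
    obtain ⟨p, hp⟩ := iha hc.1
    obtain ⟨q, hq⟩ := ihb hc.2
    obtain ⟨g, hg⟩ := a.growth_deg hc.1
    refine ⟨p + q * (g + 1), fun N s => ?_⟩
    have h1 := hp N s
    have h2 := hq N (a.exec N s)
    have h3 := hg N s
    simp only [Cmd.cost, Cmd.dep]
    set d := max a.dep b.dep with hd
    have ha : (N + 1) ^ a.dep ≤ (N + 1) ^ d := pow_dep_le (le_max_left _ _)
    have hb : (N + 1) ^ b.dep ≤ (N + 1) ^ d := pow_dep_le (le_max_right _ _)
    have e1 : p * (N + 1) ^ a.dep * (s.total + (N + 1) ^ a.dep + (N + 1)) ≤
        p * (N + 1) ^ d * (s.total + (N + 1) ^ d + (N + 1)) := by gcongr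
    have e2 : q * (N + 1) ^ b.dep * ((a.exec N s).total + (N + 1) ^ b.dep + (N + 1)) ≤
        q * (N + 1) ^ d * ((g + 1) * (s.total + (N + 1) ^ d + (N + 1))) := by
      refine Nat.mul_le_mul (by gcongr) ?_
      have : g * (N + 1) ^ a.dep ≤ g * (N + 1) ^ d := by gcongr
      nlinarith [Nat.zero_le (g * s.total), Nat.zero_le (g * (N + 1))]
    have e3 : (p + q * (g + 1)) * (N + 1) ^ d * (s.total + (N + 1) ^ d + (N + 1)) =
        p * (N + 1) ^ d * (s.total + (N + 1) ^ d + (N + 1)) +
        q * (N + 1) ^ d * ((g + 1) * (s.total + (N + 1) ^ d + (N + 1))) := by ring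
    rw [e3]
    exact Nat.add_le_add (h1.trans e1) (h2.trans e2)
  | ite f a b iha ihb =>
    obtain ⟨p, hp⟩ := iha hc.1
    obtain ⟨q, hq⟩ := ihb hc.2
    refine ⟨1 + p + q, fun N s => ?_⟩
    have h1 := hp N s
    have h2 := hq N s
    simp only [Cmd.cost, Cmd.dep]
    set d := max a.dep b.dep with hd
    have ha : (N + 1) ^ a.dep ≤ (N + 1) ^ d := pow_dep_le (le_max_left _ _)
    have hb : (N + 1) ^ b.dep ≤ (N + 1) ^ d := pow_dep_le (le_max_right _ _)
    have e1 : p * (N + 1) ^ a.dep * (s.total + (N + 1) ^ a.dep + (N + 1)) ≤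
        p * (N + 1) ^ d * (s.total + (N + 1) ^ d + (N + 1)) := by gcongr
    have e2 : q * (N + 1) ^ b.dep * (s.total + (N + 1) ^ b.dep + (N + 1)) ≤
        q * (N + 1) ^ d * (s.total + (N + 1) ^ d + (N + 1)) := by gcongr
    have e3 : (1 + p + q) * (N + 1) ^ d * (s.total + (N + 1) ^ d + (N + 1)) =
        (N + 1) ^ d * (s.total + (N + 1) ^ d + (N + 1)) +
        p * (N + 1) ^ d * (s.total + (N + 1) ^ d + (N + 1)) +
        q * (N + 1) ^ d * (s.total + (N + 1) ^ d + (N + 1)) := by ring
    have e4 : 1 ≤ (N + 1) ^ d * (s.total + (N + 1) ^ d + (N + 1)) := by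
      have : 0 < (N + 1) ^ d := by positivity
      have : 0 < (N + 1) ^ d * (s.total + (N + 1) ^ d + (N + 1)) := by positivity
      omega
    rw [e3]
    split <;> omega
  | loop i a iha =>
    obtain ⟨p, hp⟩ := iha hc.2
    obtain ⟨g, hg⟩ := a.growth_deg hc.2
    refine ⟨p * (g + 1) + 3, fun N s => ?_⟩
    simp only [Cmd.cost, Cmd.dep]
    set D := (N + 1) ^ a.dep with hD
    have hpow : (N + 1) ^ (a.dep + 1) = (N + 1) * D := by rw [hD]; ring
    rw [hpow]
    have hD0 : 0 < D := by rw [hD]; positivity
    have hsum : ∑ t ∈ Finset.range N, (a.cost N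
        ((fun s => (Op.inc i).exec N (a.exec N s))^[t] ((Op.zero i).exec N s)) + 2)
        ≤ ∑ _t ∈ Finset.range N,
          (p * D * ((g + 1) * (s.total + (N + 1) * D + (N + 1))) + 2) := by
      apply Finset.sum_le_sum
      intro t ht
      have ht' : t < N := Finset.mem_range.1 ht
      have h1 := hp N ((fun s => (Op.inc i).exec N (a.exec N s))^[t] ((Op.zero i).exec N s))
      have h2 := iter_total (i := i) (hg N) t ((Op.zero i).exec N s)
      have h3 : ((Op.zero i).exec N s).total = s.total := rfl
      rw [h3, ← hD] at h2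
      rw [← hD] at h1
      refine Nat.add_le_add_right (h1.trans (Nat.mul_le_mul_left _ ?_)) 2
      have h4 : t * (g * D) ≤ (N + 1) * (g * D) := Nat.mul_le_mul_right _ (by omega)
      have h5 : D ≤ (N + 1) * D := Nat.le_mul_of_pos_left _ (by omega)
      have h6 : (g + 1) * (s.total + (N + 1) * D + (N + 1)) = s.total + g * s.total +
        (N + 1) * (g * D) + (N + 1) * D + g * (N + 1) + (N + 1) := by ring
      rw [h6]
      omega
    rw [Finset.sum_const, Finset.card_range, smul_eq_mul] at hsum
    have e1 : N * (p * D * ((g + 1) * (s.total + (N + 1) * D + (N + 1))) + 2) ≤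
        (N + 1) * (p * D * ((g + 1) * (s.total + (N + 1) * D + (N + 1)))) + 2 * N := by
      have : N * (p * D * ((g + 1) * (s.total + (N + 1) * D + (N + 1)))) ≤
        (N + 1) * (p * D * ((g + 1) * (s.total + (N + 1) * D + (N + 1)))) :=
        Nat.mul_le_mul_right _ (by omega)
      rw [mul_add]
      omega
    have e2 : 3 * (N + 1) ≤ 3 * ((N + 1) * D) * (s.total + (N + 1) * D + (N + 1)) := by
      have h7 : 3 * (N + 1) ≤ 3 * ((N + 1) * D) := by
        have := Nat.le_mul_of_pos_right (N + 1) hD0
        omega
      have h8 : 0 < s.total + (N + 1) * D + (N + 1) := by omega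
      exact h7.trans (Nat.le_mul_of_pos_right _ h8)
    have e3 : (p * (g + 1) + 3) * ((N + 1) * D) * (s.total + (N + 1) * D + (N + 1)) =
        (N + 1) * (p * D * ((g + 1) * (s.total + (N + 1) * D + (N + 1)))) +
        3 * ((N + 1) * D) * (s.total + (N + 1) * D + (N + 1)) := by ring
    rw [e3]
    omega

/-- **The cost is bounded by a polynomial whose degree is controlled by the depth.** -/
theorem Cmd.cost_deg (c : Cmd V B K) (hc : c.WF) : ∃ p : Polynomial ℕ,
    p.natDegree ≤ 2 * c.dep + 1 ∧
    ∀ (N m : ℕ) (s : St V B K), N ≤ m → s.total ≤ m → c.cost N s ≤ p.eval m := by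
  obtain ⟨C, hC⟩ := c.cost_bound hc
  refine ⟨(C : Polynomial ℕ) * (Polynomial.X + 1) ^ c.dep *
    (Polynomial.X + (Polynomial.X + 1) ^ c.dep + (Polynomial.X + 1)), ?_, ?_⟩
  · have hX : (Polynomial.X + 1 : Polynomial ℕ).natDegree ≤ 1 := by
      compute_degree
    have h1 : ((Polynomial.X + 1 : Polynomial ℕ) ^ c.dep).natDegree ≤ c.dep := by
      refine Polynomial.natDegree_pow_le.trans ?_
      simpa using Nat.mul_le_mul_left c.dep hX
    have h2 : ((C : Polynomial ℕ) * (Polynomial.X + 1) ^ c.dep).natDegree ≤ c.dep := by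
      refine Polynomial.natDegree_mul_le.trans ?_
      rw [Polynomial.natDegree_natCast]
      omega
    have h3 : (Polynomial.X + (Polynomial.X + 1) ^ c.dep + (Polynomial.X + 1) :
        Polynomial ℕ).natDegree ≤ c.dep + 1 := by
      refine (Polynomial.natDegree_add_le _ _).trans (max_le ?_ (hX.trans (by omega)))
      refine (Polynomial.natDegree_add_le _ _).trans (max_le ?_ (h1.trans (by omega)))
      exact Polynomial.natDegree_X_le.trans (by omega)
    refine Polynomial.natDegree_mul_le.trans ?_
    omega
  · intro N m s hN hs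
    refine (hC N s).trans ?_
    simp only [Polynomial.eval_mul, Polynomial.eval_natCast, Polynomial.eval_add,
      Polynomial.eval_pow, Polynomial.eval_X, Polynomial.eval_one, Nat.cast_id]
    gcongr

variable {Γ : Type} [Fintype V] [Fintype B]

/-- The machine of a command, with a bound on the degree of its running time. -/
theorem mach_deg [Fintype Γ] (io : IO K Γ) (c : Cmd V B K) (hc : c.WF) :
    ∃ p : Polynomial ℕ, p.natDegree ≤ 2 * c.dep + 1 ∧
      ∀ w : List Γ, Nonempty (TM2OutputsInTime (mach io c) w
      (some ((c.exec (w.countP io.cnt) (St.init io w)).st io.ko).reverse)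
      (p.eval w.length)) := by
  obtain ⟨p, hpd, hp⟩ := c.cost_deg hc
  set q : Polynomial ℕ := ((Fintype.card K + 1 : ℕ) : Polynomial ℕ) * Polynomial.X with hq
  have hqd : q.natDegree ≤ 1 := by
    refine Polynomial.natDegree_mul_le.trans ?_
    rw [Polynomial.natDegree_natCast]
    have := Polynomial.natDegree_X_le (R := ℕ)
    omega
  refine ⟨4 * Polynomial.X + 3 * p.comp q + 2 * q + 4, ?_, fun w => ?_⟩
  · have h1 : (p.comp q).natDegree ≤ 2 * c.dep + 1 := by
      refine Polynomial.natDegree_comp_le.trans ?_
      calc p.natDegree * q.natDegree ≤ (2 * c.dep + 1) * 1 := Nat.mul_le_mul hpd hqd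
        _ = _ := by ring
    have hofn : ∀ (k : ℕ) (r : Polynomial ℕ), ((k : Polynomial ℕ) * r).natDegree ≤
        r.natDegree := by
      intro k r
      refine Polynomial.natDegree_mul_le.trans ?_
      rw [Polynomial.natDegree_natCast]
      omega
    have h4 : ((4 : Polynomial ℕ)).natDegree ≤ 0 := by
      exact (Polynomial.natDegree_natCast 4).le
    refine (Polynomial.natDegree_add_le _ _).trans (max_le ?_ (h4.trans (by omega)))
    refine (Polynomial.natDegree_add_le _ _).trans (max_le ?_ ?_)
    · refine (Polynomial.natDegree_add_le _ _).trans (max_le ?_ ?_)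
      · exact (hofn 4 _).trans (Polynomial.natDegree_X_le.trans (by omega))
      · exact (hofn 3 _).trans h1
    · exact (hofn 2 _).trans (hqd.trans (by omega))
  obtain ⟨h⟩ := mach_outputs io c hc w
  refine ⟨⟨h.toEvalsTo, h.steps_le_m.trans ?_⟩⟩
  have hNw : w.countP io.cnt ≤ w.length := List.countP_le_length
  have htot : (St.init (V := V) (B := B) io w).total ≤ Fintype.card K * w.length := by
    unfold St.total
    calc ∑ k, ((St.init (V := V) (B := B) io w).st k).length ≤ ∑ _k : K, w.length := by
          apply Finset.sum_le_sum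
          intro k _
          simp only [St.init, List.length_reverse]
          exact filterMap_length_le _ _
      _ = _ := by simp
  have e1 : q.eval w.length = (Fintype.card K + 1) * w.length := by
    rw [hq]
    simp only [Polynomial.eval_mul, Polynomial.eval_X, Polynomial.eval_natCast]
    norm_cast
  have h1 := hp (w.countP io.cnt) (q.eval w.length) (St.init io w)
    (by rw [e1]; nlinarith [Nat.zero_le (Fintype.card K * w.length)])
    (by rw [e1]; nlinarith)
  simp only [Polynomial.eval_add, Polynomial.eval_mul, Polynomial.eval_X,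
    Polynomial.eval_ofNat, Polynomial.eval_comp]
  have h2 : (St.init (V := V) (B := B) io w).total ≤ q.eval w.length := by rw [e1]; nlinarith
  omega

end Lang

section Arrays

variable {V W : Type} [DecidableEq V] [DecidableEq W] {D : ℕ}

theorem nop_dep : (nop : PC V W D).dep = 0 := rfl

theorem block_dep (w : W) (k : ℕ) : (block w k : PC V W D).dep = k := by
  induction k with
  | zero => rfl
  | succ k ih => simp only [block, Cmd.dep, ih]

theorem seek_dep (w : W) (xs : List V) : (seek w xs : PC V W D).dep ≤ xs.length := by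
  induction xs with
  | nil => exact le_rfl
  | cons x xs ih =>
    simp only [seek, Cmd.dep, block_dep, nop_dep, List.length_cons]
    omega

theorem rd_dep (w : W) (xs : List V) : (rd w xs : PC V W D).dep ≤ xs.length := by
  have := seek_dep (D := D) w xs
  simp only [rd, Cmd.dep]
  omega

theorem wt_dep (w : W) (xs : List V) : (wt w xs : PC V W D).dep ≤ xs.length := by
  have := seek_dep (D := D) w xs
  simp only [wt, Cmd.dep]
  omega

theorem compF_dep {ar : W → ℕ} (har : ∀ w, ar w ≤ D) {F : List V} (φ : Fml V W)
    (h : φ.wf ar F = true) : (compF φ : PC V W D).dep ≤ φ.dep + D := by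
  induction φ generalizing F with
  | arr w xs =>
    simp only [Fml.wf, Bool.and_eq_true, decide_eq_true_eq] at h
    have h1 := rd_dep (D := D) w xs
    have h2 := har w
    simp only [compF, Fml.dep]
    omega
  | le x y => simp [compF, Cmd.dep]
  | not φ ih =>
    have := ih h
    simp only [compF, Cmd.dep, Fml.dep]
    omega
  | and φ ψ ih1 ih2 =>
    simp only [Fml.wf, Bool.and_eq_true] at h
    have := ih1 h.1
    have := ih2 h.2
    simp only [compF, Cmd.dep, Fml.dep]
    omega
  | ex x φ ih =>
    simp only [Fml.wf, Bool.and_eq_true, decide_eq_true_eq] at h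
    have := ih h.2
    simp only [compF, Cmd.dep, Fml.dep]
    omega

theorem compCount_dep {ar : W → ℕ} (har : ∀ w, ar w ≤ D) {F : List V} (c : VX V D) (x : V)
    (φ : Fml V W) (h : φ.wf ar F = true) :
    (compCount c x φ : PC V W D).dep ≤ φ.dep + 1 + D := by
  have := compF_dep har φ h
  simp only [compCount, Cmd.dep, nop_dep]
  omega

theorem compC_dep {ar : W → ℕ} (har : ∀ w, ar w ≤ D) {F : List V} (c : Cond V W)
    (h : c.wf ar F = true) : (compC c : PC V W D).dep ≤ c.dep + D := by
  cases c with
  | fml φ => exact compF_dep har φ h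
  | more x φ ψ =>
    simp only [Cond.wf, Bool.and_eq_true, decide_eq_true_eq] at h
    have h1 := compCount_dep har (.c1) x φ h.1.2
    have h2 := compCount_dep har (.c2) x ψ h.2
    simp only [compC, Cmd.dep, Cond.dep]
    omega

theorem compS_dep {ar : W → ℕ} (har : ∀ w, ar w ≤ D) {F : List V} (s : Stmt V W)
    (h : s.wf ar F = true) : (compS s : PC V W D).dep ≤ s.dep + D := by
  induction s generalizing F with
  | wr w xs φ =>
    simp only [Stmt.wf, Bool.and_eq_true, decide_eq_true_eq] at h
    have h1 := compF_dep har φ h.2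
    have h2 := wt_dep (D := D) w xs
    have h3 := har w
    simp only [compS, Cmd.dep, Stmt.dep]
    omega
  | seq s t ih1 ih2 =>
    simp only [Stmt.wf, Bool.and_eq_true] at h
    have := ih1 h.1
    have := ih2 h.2
    simp only [compS, Cmd.dep, Stmt.dep]
    omega
  | ite c s t ih1 ih2 =>
    simp only [Stmt.wf, Bool.and_eq_true] at h
    have := compC_dep har c h.1.1
    have := ih1 h.1.2
    have := ih2 h.2
    simp only [compS, Cmd.dep, Stmt.dep]
    omega
  | loop x s ih =>
    simp only [Stmt.wf, Bool.and_eq_true, decide_eq_true_eq] at h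
    have := ih h.2
    simp only [compS, Cmd.dep, Stmt.dep]
    omega
  | emit φ =>
    have := compF_dep har φ h
    simp only [compS, Cmd.dep, Stmt.dep]
    omega
  | skip => simp [compS, nop_dep]

theorem rewAll_dep (l : List W) : (rewAll l : PC V W D).dep = 0 := by
  induction l with
  | nil => rfl
  | cons w l ih => simp [rewAll, Cmd.dep, ih]

/-- **Programs of bounded depth run in polynomial time of bounded degree.** The degree depends
only on the nesting depth of the program and on the largest arity. -/
theorem Stmt.polytime_deg {Γ : Type} [Fintype Γ] [Fintype V] [Fintype W] {ar : W → ℕ}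
    (har : ∀ w, ar w ≤ D) (S : Stmt V W) (hwf : S.wf ar [] = true) (cnt : Γ → Bool)
    (ini : W → Γ → Option Bool) :
    ∃ (M : TM2ComputableAux Γ Bool) (p : Polynomial ℕ), p.natDegree ≤ 2 * (S.dep + D) + 1 ∧
      (∀ k, Finite (M.tm.Γ k)) ∧
      ∀ word : List Γ, Nonempty (TM2OutputsInTime M.tm (word.map M.inputAlphabet.invFun)
        (some ((S.out cnt ini word).map M.outputAlphabet.invFun)) (p.eval word.length)) := by
  set io : IO (KX W) Γ := ⟨cnt, fun k => match k with
    | .tl w => ini w
    | _ => fun _ => none, .out⟩ with hio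
  set c : PC V W D := .seq (rewAll Finset.univ.toList) (compS S) with hc
  have hcWF : c.WF := ⟨rewAll_WF _, compS_WF har S hwf⟩
  have hcdep : c.dep ≤ S.dep + D := by
    have h1 := compS_dep har S hwf
    have h2 := rewAll_dep (V := V) (D := D) (Finset.univ : Finset W).toList
    simp only [hc, Cmd.dep]
    omega
  obtain ⟨p, hpd, hp⟩ := mach_deg io c hcWF
  refine ⟨⟨mach io c, Equiv.refl _, Equiv.refl _⟩, p, by omega, fun k => gamFinite _ _ _ k,
    fun word => ?_⟩
  obtain ⟨h⟩ := hp word
  set N := word.countP io.cnt with hN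
  set s0 : PS V W D := St.init io word with hs0
  have hok0 : s0.ok N := fun _ => Nat.zero_le _
  set s1 : PS V W D := (rewAll Finset.univ.toList).exec N s0 with hs1
  have hst := rewAll_st (N := N) (D := D) (V := V) (Finset.univ : Finset W).toList
    (Finset.nodup_toList _) s0
  rw [← hs1] at hst
  have hrep : Rep N ar (iniArr N ini word) s1.st := by
    constructor
    · intro w; rw [hst]; simp
    · intro w ys _ _
      rw [hst]
      simp [hs0, St.init, hio, iniArr]
  have hout : s1.st .out = ([] : List Bool).reverse := by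
    rw [hst]; simp [hs0, St.init, hio]
  obtain ⟨_, g2⟩ := compS_spec (N := N) (D := D) har S [] hwf (fun _ => 0)
    ⟨iniArr N ini word, []⟩ s1 (Cmd.exec_ok _ _ hok0) (by simp) hrep hout
  have hex : c.exec N s0 = (compS S).exec N s1 := rfl
  have hko : io.ko = .out := rfl
  rw [hko, hex, g2, List.reverse_reverse] at h
  have e1 : word.map (Equiv.refl Γ).invFun = word := by
    change word.map id = word
    simp
  have e2 : (S.out cnt ini word).map (Equiv.refl Bool).invFun = S.out cnt ini word := by
    change (S.out cnt ini word).map id = _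
    simp
  exact ⟨cast (congrArg₂ (fun (x : List Γ) (y : List Bool) =>
    TM2OutputsInTime (mach io c) x (some y) (p.eval word.length)) e1 e2).symm h⟩

end Arrays

end Pool.Agent.Lib.PolyTM
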