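import Pool.Agent.Lib.FOLFPd_h54.Degree
import Pool.Agent.Lib.FOLFPd_h74.BigLfp

/-! # The hypothesis PolytimeDeg holds -/

namespace Pool.Agent.Lib.FOLFPd

open Pool.Agent.Lib.PolyTM Turing

theorem polytimeDeg : PolytimeDeg := by
  intro V W _ _ Γ _ _ _ ar D har S hwf cnt ini
  obtain ⟨M, p, hp, h1, h2⟩ := Stmt.polytime_deg har S hwf cnt ini
  exact ⟨M, p, by omega, h1, h2⟩

end Pool.Agent.Lib.FOLFPd
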